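import Mathlib
import Pool.Agent.W223.RB.Stms

/-!
Gap principle: one cell contains one light point.
-/

set_option autoImplicit false

namespace Pool.Agent.W33.RB

open Finset Pool.Agent.W223.RB

variable {d : ℕ}

/-- the exponent of a prime in an integer -/
def v (q : ℕ) (n : ℤ) : ℕ := n.natAbs.factorization q

theorem v_mul (q : ℕ) {a b : ℤ} (ha : a ≠ 0) (hb : b ≠ 0) : v q (a * b) = v q a + v q b := by
  unfold v
  rw [Int.natAbs_mul, Nat.factorization_mul (Int.natAbs_ne_zero.mpr ha) (Int.natAbs_ne_zero.mpr hb)]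
  rfl

theorem le_v {q : ℕ} (hq : q.Prime) {n : ℤ} (hn : n ≠ 0) {k : ℕ} (h : ((q : ℤ) ^ k) ∣ n) :
    k ≤ v q n := by
  unfold v
  rw [← hq.pow_dvd_iff_le_factorization (Int.natAbs_ne_zero.mpr hn)]
  have h2 := Int.natAbs_dvd_natAbs.mpr h
  rwa [Int.natAbs_pow, Int.natAbs_natCast] at h2

theorem pow_v_dvd {q : ℕ} (n : ℤ) {k : ℕ} (hk : k ≤ v q n) : ((q : ℤ) ^ k) ∣ n := by
  have h1 : q ^ k ∣ n.natAbs := (pow_dvd_pow q hk).trans (Nat.ordProj_dvd n.natAbs q)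
  have h2 := Int.natCast_dvd.mpr h1
  push_cast at h2
  exact h2

theorem sumlog (S : Finset ℕ) (n : ℤ) :
    ∑ q ∈ S, (v q n : ℝ) * Real.log q ≤ Real.log |(n : ℝ)| := by
  rcases eq_or_ne n 0 with rfl | hn
  · simp [v]
  have hm : n.natAbs ≠ 0 := Int.natAbs_ne_zero.mpr hn
  have h1 : |(n : ℝ)| = ((n.natAbs : ℕ) : ℝ) := by
    rw [Nat.cast_natAbs, Int.cast_abs]
  have h2 : Real.log ((n.natAbs : ℕ) : ℝ) =
      ∑ q ∈ n.natAbs.primeFactors, (v q n : ℝ) * Real.log q := by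
    conv_lhs => rw [← Nat.prod_factorization_pow_eq_self hm]
    rw [Finsupp.prod]
    push_cast
    rw [Real.log_prod]
    · apply sum_congr
      · simp
      · intro q _
        rw [Real.log_pow]
        rfl
    · intro q hq
      have hq' : q ∈ n.natAbs.primeFactors := by simpa using hq
      have := (Nat.prime_of_mem_primeFactors hq').pos
      positivity
  rw [h1, h2]
  have h3 : ∑ q ∈ n.natAbs.primeFactors, (v q n : ℝ) * Real.log q =
      ∑ q ∈ S ∪ n.natAbs.primeFactors, (v q n : ℝ) * Real.log q := by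
    apply sum_subset subset_union_right
    intro q _ hq
    have : v q n = 0 := by
      unfold v
      rwa [← Nat.support_factorization, Finsupp.notMem_support_iff] at hq
    rw [this]
    simp
  rw [h3]
  apply sum_le_sum_of_subset_of_nonneg subset_union_left
  intro q _ _
  exact mul_nonneg (Nat.cast_nonneg _) (Real.log_natCast_nonneg q)

theorem Dl_dvd (α β : Fin d → ℤ) (i j : Fin d) {x y m : ℤ} (hxy : IsCoprime x y)
    (h1 : m ∣ V α β i x y) (h2 : m ∣ V α β j x y) : m ∣ (α i * β j - α j * β i) := by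
  obtain ⟨a, b, hab⟩ := hxy
  have h3 : (α i * β j - α j * β i) = (a * β j - b * α j) * V α β i x y +
      (b * α i - a * β i) * V α β j x y := by
    unfold V
    linear_combination (-(α i * β j - α j * β i)) * hab
  rw [h3]
  exact dvd_add (Dvd.dvd.mul_left h1 _) (Dvd.dvd.mul_left h2 _)

theorem V_ne {α β : Fin d → ℤ} {x y : ℤ} (h : Pt α β x y) (i : Fin d) : V α β i x y ≠ 0 := by
  have h1 := h.2
  unfold F at h1
  exact (prod_ne_zero_iff.mp h1) i (mem_univ i)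

theorem local_ineq (α β : Fin d → ℤ) (hd : 2 ≤ d) (hG : ∀ i j, i ≠ j → α i * β j ≠ α j * β i)
    (q : ℕ) (hq : q.Prime) (x₁ y₁ x₂ y₂ : ℤ) (h1 : Pt α β x₁ y₁) (h2 : Pt α β x₂ y₂)
    (hD : x₁ * y₂ - x₂ * y₁ ≠ 0) :
    ∑ i, min (vq α β i x₁ y₁ q) (vq α β i x₂ y₂ q) ≤
      v q (x₁ * y₂ - x₂ * y₁) + 2 * ∑ i, ∑ j, v q (α i * β j - α j * β i) := by
  haveI : Nonempty (Fin d) := ⟨⟨0, by omega⟩⟩
  set m : Fin d → ℕ := fun i => min (vq α β i x₁ y₁ q) (vq α β i x₂ y₂ q) with hm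
  have hne : ∀ i j, i ≠ j → α i * β j - α j * β i ≠ 0 := fun i j h => sub_ne_zero.mpr (hG i j h)
  obtain ⟨s, _, hs⟩ := exists_max_image (univ : Finset (Fin d)) m univ_nonempty
  have hex : ∃ j : Fin d, s ≠ j := by
    by_cases h : s = ⟨0, by omega⟩
    · refine ⟨⟨1, by omega⟩, ?_⟩
      rw [h]
      intro h'
      have := congrArg Fin.val h'
      simp at this
    · exact ⟨_, h⟩
  obtain ⟨t, hst⟩ := hex
  have a1 : ∀ i, m i ≤ v q (V α β i x₁ y₁) := fun i => min_le_left _ _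
  have a2 : ∀ i, m i ≤ v q (V α β i x₂ y₂) := fun i => min_le_right _ _
  -- the largest one
  have b1 : m s ≤ v q (α s * β t - α t * β s) + v q (x₁ * y₂ - x₂ * y₁) := by
    rw [← v_mul q (hne s t hst) hD]
    apply le_v hq (mul_ne_zero (hne s t hst) hD)
    have e1 : (α s * β t - α t * β s) * (x₁ * y₂ - x₂ * y₁) =
        V α β s x₁ y₁ * V α β t x₂ y₂ - V α β s x₂ y₂ * V α β t x₁ y₁ := by
      unfold V
      ring
    rw [e1]
    exact dvd_sub (Dvd.dvd.mul_right (pow_v_dvd _ (a1 s)) _)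
      (Dvd.dvd.mul_right (pow_v_dvd _ (a2 s)) _)
  have b2 : ∀ i ∈ (univ : Finset (Fin d)).erase s, m i ≤ v q (α i * β s - α s * β i) := by
    intro i hi
    have his : i ≠ s := (mem_erase.mp hi).1
    apply le_v hq (hne i s his)
    exact Dl_dvd α β i s h1.1 (pow_v_dvd _ (a1 i))
      (pow_v_dvd _ ((hs i (mem_univ i)).trans (a1 s)))
  have c1 : v q (α s * β t - α t * β s) ≤ ∑ i, ∑ j, v q (α i * β j - α j * β i) := by
    have e1 : v q (α s * β t - α t * β s) ≤ ∑ j, v q (α s * β j - α j * β s) :=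
      single_le_sum (f := fun j => v q (α s * β j - α j * β s)) (fun _ _ => Nat.zero_le _)
        (mem_univ t)
    have e2 : ∑ j, v q (α s * β j - α j * β s) ≤ ∑ i, ∑ j, v q (α i * β j - α j * β i) :=
      single_le_sum (f := fun i => ∑ j, v q (α i * β j - α j * β i)) (fun _ _ => Nat.zero_le _)
        (mem_univ s)
    exact e1.trans e2
  have c2 : ∑ i ∈ (univ : Finset (Fin d)).erase s, v q (α i * β s - α s * β i) ≤
      ∑ i, ∑ j, v q (α i * β j - α j * β i) := by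
    calc ∑ i ∈ (univ : Finset (Fin d)).erase s, v q (α i * β s - α s * β i)
        ≤ ∑ i, v q (α i * β s - α s * β i) :=
          sum_le_sum_of_subset (erase_subset _ _)
      _ ≤ ∑ i, ∑ j, v q (α i * β j - α j * β i) := by
          apply sum_le_sum
          intro i _
          exact single_le_sum (f := fun j => v q (α i * β j - α j * β i))
            (fun _ _ => Nat.zero_le _) (mem_univ s)
  have e3 : ∑ i, m i = m s + ∑ i ∈ (univ : Finset (Fin d)).erase s, m i :=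
    (add_sum_erase univ m (mem_univ s)).symm
  have e4 := sum_le_sum b2
  show ∑ i, m i ≤ _
  rw [e3]
  omega

theorem T_upper (α β : Fin d → ℤ) (hd : 2 ≤ d) (hG : ∀ i j, i ≠ j → α i * β j ≠ α j * β i)
    (S : Finset ℕ) (hS : ∀ q ∈ S, q.Prime) (x₁ y₁ x₂ y₂ : ℤ) (h1 : Pt α β x₁ y₁)
    (h2 : Pt α β x₂ y₂) (hD : x₁ * y₂ - x₂ * y₁ ≠ 0) :
    ∑ q ∈ S, ((∑ i, min (vq α β i x₁ y₁ q) (vq α β i x₂ y₂ q) : ℕ) : ℝ) * Real.log q ≤
      Real.log |((x₁ * y₂ - x₂ * y₁ : ℤ) : ℝ)| +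
        2 * ∑ i, ∑ j, Real.log |((α i * β j - α j * β i : ℤ) : ℝ)| := by
  calc ∑ q ∈ S, ((∑ i, min (vq α β i x₁ y₁ q) (vq α β i x₂ y₂ q) : ℕ) : ℝ) * Real.log q
      ≤ ∑ q ∈ S, ((v q (x₁ * y₂ - x₂ * y₁) + 2 * ∑ i, ∑ j, v q (α i * β j - α j * β i) : ℕ) : ℝ)
          * Real.log q := by
        apply sum_le_sum
        intro q hq
        apply mul_le_mul_of_nonneg_right _ (Real.log_natCast_nonneg q)
        exact_mod_cast local_ineq α β hd hG q (hS q hq) x₁ y₁ x₂ y₂ h1 h2 hD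
    _ = ∑ q ∈ S, (v q (x₁ * y₂ - x₂ * y₁) : ℝ) * Real.log q +
        2 * ∑ i, ∑ j, ∑ q ∈ S, (v q (α i * β j - α j * β i) : ℝ) * Real.log q := by
        have e1 : ∀ q ∈ S, ((v q (x₁ * y₂ - x₂ * y₁) +
            2 * ∑ i, ∑ j, v q (α i * β j - α j * β i) : ℕ) : ℝ) * Real.log q =
            (v q (x₁ * y₂ - x₂ * y₁) : ℝ) * Real.log q +
            2 * ∑ i, ∑ j, (v q (α i * β j - α j * β i) : ℝ) * Real.log q := by
          intro q _
          push_cast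
          rw [add_mul, mul_assoc, sum_mul]
          congr 2
          apply sum_congr rfl
          intro i _
          rw [sum_mul]
        rw [sum_congr rfl e1, sum_add_distrib, ← mul_sum]
        congr 2
        rw [sum_comm]
        apply sum_congr rfl
        intro i _
        rw [sum_comm]
    _ ≤ _ := by
        apply add_le_add (sumlog S _)
        apply mul_le_mul_of_nonneg_left _ (by norm_num)
        apply sum_le_sum
        intro i _
        apply sum_le_sum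
        intro j _
        exact sumlog S _

theorem T_lower (hd : 0 < d) (S : Finset ℕ) (a b : Fin d → ℕ → ℕ) (ℓ : ℝ) (hℓ : 0 ≤ ℓ)
    (hN : ∀ i : Fin d, ∀ q ∈ S, |((a i q : ℝ) - (b i q : ℝ)) * Real.log q| ≤
      ℓ / (32 * d * (S.card + 1))) :
    ∑ q ∈ S, ((∑ i, a i q : ℕ) : ℝ) * Real.log q ≤
      ∑ q ∈ S, ((∑ i, min (a i q) (b i q) : ℕ) : ℝ) * Real.log q + ℓ / 32 := by
  have hdr : (0 : ℝ) < (d : ℝ) := by exact_mod_cast hd
  have h1 : ∀ q ∈ S, ((∑ i, a i q : ℕ) : ℝ) * Real.log q ≤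
      ((∑ i, min (a i q) (b i q) : ℕ) : ℝ) * Real.log q + d * (ℓ / (32 * d * (S.card + 1))) := by
    intro q hq
    push_cast
    rw [sum_mul, sum_mul]
    have e1 : (d : ℝ) * (ℓ / (32 * d * (S.card + 1))) =
        ∑ _i : Fin d, ℓ / (32 * d * (S.card + 1)) := by
      rw [sum_const, card_univ, Fintype.card_fin, nsmul_eq_mul]
    rw [e1, ← sum_add_distrib]
    apply sum_le_sum
    intro i _
    have h2 := hN i q hq
    have hl := Real.log_natCast_nonneg q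
    rcases le_total (a i q) (b i q) with h | h
    · have h' : (a i q : ℝ) ≤ (b i q : ℝ) := by exact_mod_cast h
      rw [min_eq_left h']
      have := (abs_nonneg _).trans h2
      linarith
    · have h' : (b i q : ℝ) ≤ (a i q : ℝ) := by exact_mod_cast h
      rw [min_eq_right h']
      have := (le_abs_self _).trans h2
      nlinarith
  refine (sum_le_sum h1).trans ?_
  rw [sum_add_distrib, sum_const, nsmul_eq_mul]
  have h3 : (S.card : ℝ) * (d * (ℓ / (32 * d * (S.card + 1)))) ≤ ℓ / 32 := by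
    have hc : (0 : ℝ) ≤ (S.card : ℝ) := Nat.cast_nonneg _
    have h4 : (S.card : ℝ) * (d * (ℓ / (32 * d * (S.card + 1)))) =
        (S.card / (S.card + 1)) * (ℓ / 32) := by
      field_simp
    rw [h4]
    have h5 : (S.card : ℝ) / (S.card + 1) ≤ 1 := by
      rw [div_le_one (by positivity)]
      linarith
    calc (S.card : ℝ) / (S.card + 1) * (ℓ / 32) ≤ 1 * (ℓ / 32) :=
          mul_le_mul_of_nonneg_right h5 (by positivity)
      _ = ℓ / 32 := one_mul _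
  linarith

theorem vF (α β : Fin d → ℤ) {x y : ℤ} (h : Pt α β x y) (q : ℕ) :
    (F α β x y).natAbs.factorization q = ∑ i, vq α β i x y q := by
  have h1 : (F α β x y).natAbs = ∏ i, (V α β i x y).natAbs := by
    unfold F
    exact map_prod Int.natAbsHom _ _
  rw [h1, Nat.factorization_prod (fun i _ => Int.natAbs_ne_zero.mpr (V_ne h i))]
  rw [Finsupp.finset_sum_apply]
  rfl

/-- a bound for the coefficients -/
noncomputable def AA (α β : Fin d → ℤ) : ℝ := 1 + ∑ i, (|(α i : ℝ)| + |(β i : ℝ)|)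

theorem AA_one (α β : Fin d → ℤ) : 1 ≤ AA α β := by
  unfold AA
  have : 0 ≤ ∑ i, (|(α i : ℝ)| + |(β i : ℝ)|) := sum_nonneg (fun i _ => by positivity)
  linarith

theorem AA_le (α β : Fin d → ℤ) (i : Fin d) : |(α i : ℝ)| ≤ AA α β ∧ |(β i : ℝ)| ≤ AA α β := by
  unfold AA
  have h1 : |(α i : ℝ)| + |(β i : ℝ)| ≤ ∑ i, (|(α i : ℝ)| + |(β i : ℝ)|) :=
    single_le_sum (f := fun i => |(α i : ℝ)| + |(β i : ℝ)|) (fun i _ => by positivity) (mem_univ i)
  have h2 := abs_nonneg (α i : ℝ)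
  have h3 := abs_nonneg (β i : ℝ)
  constructor <;> linarith

theorem size_up (α β : Fin d → ℤ) (i : Fin d) (x y : ℤ) :
    |(V α β i x y : ℝ)| ≤ 2 * AA α β * max |(x : ℝ)| |(y : ℝ)| := by
  unfold V
  push_cast
  have hA := AA_one α β
  obtain ⟨h1, h2⟩ := AA_le α β i
  have h3 : |(α i : ℝ) * x| ≤ AA α β * max |(x : ℝ)| |(y : ℝ)| := by
    rw [abs_mul]
    exact mul_le_mul h1 (le_max_left _ _) (abs_nonneg _) (by linarith)
  have h4 : |(β i : ℝ) * y| ≤ AA α β * max |(x : ℝ)| |(y : ℝ)| := by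
    rw [abs_mul]
    exact mul_le_mul h2 (le_max_right _ _) (abs_nonneg _) (by linarith)
  have h5 := abs_add_le ((α i : ℝ) * x) ((β i : ℝ) * y)
  linarith

theorem one_le_abs {n : ℤ} (h : n ≠ 0) : 1 ≤ |(n : ℝ)| := by
  have : (1 : ℤ) ≤ |n| := Int.one_le_abs h
  exact_mod_cast this

theorem size_low (α β : Fin d → ℤ) (hG : ∀ i j, i ≠ j → α i * β j ≠ α j * β i) (i i₀ : Fin d)
    (hi : i ≠ i₀) (x y : ℤ) (hmin : |V α β i₀ x y| ≤ |V α β i x y|) :
    max |(x : ℝ)| |(y : ℝ)| ≤ 2 * AA α β * |(V α β i x y : ℝ)| := by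
  have hne : α i * β i₀ - α i₀ * β i ≠ 0 := sub_ne_zero.mpr (hG i i₀ hi)
  have h1 := one_le_abs hne
  have hA := AA_one α β
  obtain ⟨a1, a2⟩ := AA_le α β i
  obtain ⟨b1, b2⟩ := AA_le α β i₀
  have hmin' : |(V α β i₀ x y : ℝ)| ≤ |(V α β i x y : ℝ)| := by exact_mod_cast hmin
  have hV := abs_nonneg (V α β i x y : ℝ)
  have hV0 := abs_nonneg (V α β i₀ x y : ℝ)
  have key : ∀ (z : ℤ) (p r : ℤ), (α i * β i₀ - α i₀ * β i) * z =
      p * V α β i x y - r * V α β i₀ x y → |(p : ℝ)| ≤ AA α β → |(r : ℝ)| ≤ AA α β →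
      |(z : ℝ)| ≤ 2 * AA α β * |(V α β i x y : ℝ)| := by
    intro z p r hz hp hr
    have hz' : ((α i * β i₀ - α i₀ * β i : ℤ) : ℝ) * (z : ℝ) =
        (p : ℝ) * (V α β i x y : ℝ) - (r : ℝ) * (V α β i₀ x y : ℝ) := by exact_mod_cast hz
    calc |(z : ℝ)| = 1 * |(z : ℝ)| := (one_mul _).symm
      _ ≤ |((α i * β i₀ - α i₀ * β i : ℤ) : ℝ)| * |(z : ℝ)| :=
        mul_le_mul_of_nonneg_right h1 (abs_nonneg _)
      _ = |(p : ℝ) * (V α β i x y : ℝ) - (r : ℝ) * (V α β i₀ x y : ℝ)| := by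
        rw [← abs_mul, hz']
      _ ≤ |(p : ℝ) * (V α β i x y : ℝ)| + |(r : ℝ) * (V α β i₀ x y : ℝ)| := abs_sub _ _
      _ ≤ AA α β * |(V α β i x y : ℝ)| + AA α β * |(V α β i x y : ℝ)| := by
        rw [abs_mul, abs_mul]
        apply add_le_add
        · exact mul_le_mul_of_nonneg_right hp hV
        · exact mul_le_mul hr hmin' hV0 (by linarith)
      _ = 2 * AA α β * |(V α β i x y : ℝ)| := by ring
  apply max_le
  · apply key x (β i₀) (β i) _ b2 a2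
    unfold V
    ring
  · apply key y (-α i₀) (-α i)
    · unfold V
      ring
    · push_cast
      rw [abs_neg]
      exact b1
    · push_cast
      rw [abs_neg]
      exact a1

theorem logF (α β : Fin d → ℤ) (hG : ∀ i j, i ≠ j → α i * β j ≠ α j * β i) (i₀ : Fin d)
    (x y : ℤ) (h : Pt α β x y) (hH : 0 < max |(x : ℝ)| |(y : ℝ)|)
    (hmin : ∀ i, |V α β i₀ x y| ≤ |V α β i x y|) :
    Real.log |(V α β i₀ x y : ℝ)| + ((d : ℝ) - 1) * (lH x y - Real.log (2 * AA α β)) ≤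
      Real.log |(F α β x y : ℝ)| := by
  have hA := AA_one α β
  have hV : ∀ i, 0 < |(V α β i x y : ℝ)| := by
    intro i
    have := one_le_abs (V_ne h i)
    linarith
  have h1 : Real.log |(F α β x y : ℝ)| = ∑ i, Real.log |(V α β i x y : ℝ)| := by
    unfold F
    rw [Int.cast_prod, abs_prod, Real.log_prod (fun i _ => (hV i).ne')]
  have hdpos : 1 ≤ d := by
    have := i₀.isLt
    omega
  have h2 : ((d : ℝ) - 1) * (lH x y - Real.log (2 * AA α β)) =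
      ∑ _i ∈ (univ : Finset (Fin d)).erase i₀, (lH x y - Real.log (2 * AA α β)) := by
    rw [sum_const, card_erase_of_mem (mem_univ _), card_univ, Fintype.card_fin, nsmul_eq_mul,
      Nat.cast_sub hdpos, Nat.cast_one]
  rw [h1, ← add_sum_erase univ (fun i => Real.log |(V α β i x y : ℝ)|) (mem_univ i₀), h2]
  apply add_le_add_right
  apply sum_le_sum
  intro i hi
  have hi' : i ≠ i₀ := (mem_erase.mp hi).1
  have h3 := size_low α β hG i i₀ hi' x y (hmin i)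
  have h4 := Real.log_le_log hH h3
  rw [Real.log_mul (by positivity) (hV i).ne'] at h4
  unfold lH
  linarith

theorem core (α β : Fin d → ℤ) (hd : 2 ≤ d) (hG : ∀ i j, i ≠ j → α i * β j ≠ α j * β i)
    (S : Finset ℕ) (ℓ : ℝ) (hS : ∀ q ∈ S, q.Prime) (hℓ : 1 ≤ ℓ) (x₁ y₁ x₂ y₂ : ℤ)
    (h1 : Pt α β x₁ y₁) (h2 : Pt α β x₂ y₂) (s1 : Scale ℓ x₁ y₁) (s2 : Scale ℓ x₂ y₂)
    (l1 : Light α β S x₁ y₁)
    (hN : ∀ i : Fin d, ∀ q ∈ S, |((vq α β i x₁ y₁ q : ℝ) - (vq α β i x₂ y₂ q : ℝ)) * Real.log q| ≤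
      ℓ / (32 * d * (S.card + 1)))
    (i₀ : Fin d) (m1 : ∀ i, |V α β i₀ x₁ y₁| ≤ |V α β i x₁ y₁|)
    (hmax : |(V α β i₀ x₂ y₂ : ℝ)| ≤ |(V α β i₀ x₁ y₁ : ℝ)|)
    (hD : x₁ * y₂ - x₂ * y₁ ≠ 0) :
    ℓ / 16 ≤ ((d : ℝ) - 1) * Real.log (2 * AA α β) + Real.log (4 * AA α β) +
      2 * ∑ i, ∑ j, Real.log |((α i * β j - α j * β i : ℤ) : ℝ)| := by
  have hA := AA_one α β
  have pos : ∀ x y : ℤ, Scale ℓ x y → 0 < max |(x : ℝ)| |(y : ℝ)| := by
    intro x y hs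
    have h0 : 0 ≤ max |(x : ℝ)| |(y : ℝ)| := (abs_nonneg _).trans (le_max_left _ _)
    rcases h0.lt_or_eq with h | h
    · exact h
    · exfalso
      have h3 := hs.1
      unfold lH at h3
      rw [← h, Real.log_zero] at h3
      linarith
  have H1 := pos x₁ y₁ s1
  have H2 := pos x₂ y₂ s2
  have up : ∀ x y : ℤ, Scale ℓ x y → 0 < max |(x : ℝ)| |(y : ℝ)| →
      max |(x : ℝ)| |(y : ℝ)| ≤ Real.exp (33 / 32 * ℓ) := by
    intro x y hs h0
    rw [← Real.log_le_iff_le_exp h0]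
    exact hs.2
  have a := logF α β hG i₀ x₁ y₁ h1 H1 m1
  have b := l1
  unfold Light at b
  have c := T_lower (d := d) (by omega) S (fun i q => vq α β i x₁ y₁ q)
    (fun i q => vq α β i x₂ y₂ q) ℓ (by linarith) hN
  have c' : ∑ q ∈ S, ((F α β x₁ y₁).natAbs.factorization q : ℝ) * Real.log q =
      ∑ q ∈ S, ((∑ i, vq α β i x₁ y₁ q : ℕ) : ℝ) * Real.log q := by
    apply sum_congr rfl
    intro q _
    rw [vF α β h1 q]
  have e := T_upper α β hd hG S hS x₁ y₁ x₂ y₂ h1 h2 hD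
  -- the size of the determinant
  have hex : ∃ j : Fin d, i₀ ≠ j := by
    by_cases h : i₀ = ⟨0, by omega⟩
    · refine ⟨⟨1, by omega⟩, ?_⟩
      rw [h]
      intro h'
      have := congrArg Fin.val h'
      simp at this
    · exact ⟨_, h⟩
  obtain ⟨j, hj⟩ := hex
  have hne : α i₀ * β j - α j * β i₀ ≠ 0 := sub_ne_zero.mpr (hG i₀ j hj)
  have hVpos : 0 < |(V α β i₀ x₁ y₁ : ℝ)| := by
    have := one_le_abs (V_ne h1 i₀)
    linarith
  have g1 : |((x₁ * y₂ - x₂ * y₁ : ℤ) : ℝ)| ≤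
      4 * AA α β * (|(V α β i₀ x₁ y₁ : ℝ)| * Real.exp (33 / 32 * ℓ)) := by
    have e1 : ((α i₀ * β j - α j * β i₀ : ℤ) : ℝ) * ((x₁ * y₂ - x₂ * y₁ : ℤ) : ℝ) =
        (V α β i₀ x₁ y₁ : ℝ) * (V α β j x₂ y₂ : ℝ) -
          (V α β i₀ x₂ y₂ : ℝ) * (V α β j x₁ y₁ : ℝ) := by
      unfold V
      push_cast
      ring
    have f1 : |(V α β j x₂ y₂ : ℝ)| ≤ 2 * AA α β * Real.exp (33 / 32 * ℓ) :=
      (size_up α β j x₂ y₂).trans (mul_le_mul_of_nonneg_left (up x₂ y₂ s2 H2) (by positivity))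
    have f2 : |(V α β j x₁ y₁ : ℝ)| ≤ 2 * AA α β * Real.exp (33 / 32 * ℓ) :=
      (size_up α β j x₁ y₁).trans (mul_le_mul_of_nonneg_left (up x₁ y₁ s1 H1) (by positivity))
    calc |((x₁ * y₂ - x₂ * y₁ : ℤ) : ℝ)| = 1 * |((x₁ * y₂ - x₂ * y₁ : ℤ) : ℝ)| := (one_mul _).symm
      _ ≤ |((α i₀ * β j - α j * β i₀ : ℤ) : ℝ)| * |((x₁ * y₂ - x₂ * y₁ : ℤ) : ℝ)| :=
        mul_le_mul_of_nonneg_right (one_le_abs hne) (abs_nonneg _)
      _ = |(V α β i₀ x₁ y₁ : ℝ) * (V α β j x₂ y₂ : ℝ) -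
          (V α β i₀ x₂ y₂ : ℝ) * (V α β j x₁ y₁ : ℝ)| := by
        rw [← abs_mul, e1]
      _ ≤ |(V α β i₀ x₁ y₁ : ℝ) * (V α β j x₂ y₂ : ℝ)| +
          |(V α β i₀ x₂ y₂ : ℝ) * (V α β j x₁ y₁ : ℝ)| := abs_sub _ _
      _ ≤ |(V α β i₀ x₁ y₁ : ℝ)| * (2 * AA α β * Real.exp (33 / 32 * ℓ)) +
          |(V α β i₀ x₁ y₁ : ℝ)| * (2 * AA α β * Real.exp (33 / 32 * ℓ)) := by
        rw [abs_mul, abs_mul]
        apply add_le_add
        · exact mul_le_mul_of_nonneg_left f1 (abs_nonneg _)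
        · exact mul_le_mul hmax f2 (abs_nonneg _) (abs_nonneg _)
      _ = 4 * AA α β * (|(V α β i₀ x₁ y₁ : ℝ)| * Real.exp (33 / 32 * ℓ)) := by ring
  have hDpos : 0 < |((x₁ * y₂ - x₂ * y₁ : ℤ) : ℝ)| := by
    have := one_le_abs hD
    linarith
  have g2 := Real.log_le_log hDpos g1
  rw [Real.log_mul (by positivity) (by positivity), Real.log_mul hVpos.ne' (Real.exp_pos _).ne',
    Real.log_exp] at g2
  have s1' := s1.1
  rw [c'] at b
  nlinarith

theorem tBGP : Pool.Agent.W223.RB.StmtBGP := by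
  intro d α β hGood
  obtain ⟨hd, hG⟩ := hGood
  set C : ℝ := ((d : ℝ) - 1) * Real.log (2 * AA α β) + Real.log (4 * AA α β) +
      2 * ∑ i, ∑ j, Real.log |((α i * β j - α j * β i : ℤ) : ℝ)| with hC
  refine ⟨1 + 16 * |C|, by linarith [abs_nonneg C], ?_⟩
  intro S ℓ hS hℓ x₁ y₁ x₂ y₂ h1 h2 s1 s2 l1 l2 hNear
  by_contra hne
  have hD : x₁ * y₂ - x₂ * y₁ ≠ 0 := sub_ne_zero.mpr hne
  have hD' : x₂ * y₁ - x₁ * y₂ ≠ 0 := sub_ne_zero.mpr (Ne.symm hne)
  have hℓ1 : 1 ≤ ℓ := by linarith [abs_nonneg C]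
  have hfin : ¬ ℓ / 16 ≤ C := by
    intro h
    have := le_abs_self C
    linarith
  obtain ⟨hN, i₀, m1, m2⟩ := hNear
  rcases le_total |(V α β i₀ x₂ y₂ : ℝ)| |(V α β i₀ x₁ y₁ : ℝ)| with h | h
  · exact hfin (core α β (by omega) hG S ℓ hS hℓ1 x₁ y₁ x₂ y₂ h1 h2 s1 s2 l1 hN i₀ m1 h hD)
  · apply hfin
    apply core α β (by omega) hG S ℓ hS hℓ1 x₂ y₂ x₁ y₁ h2 h1 s2 s1 l2 _ i₀ m2 h hD'
    intro i q hq
    have h3 := hN i q hq
    rw [← abs_neg] at h3
    have e1 : -(((vq α β i x₁ y₁ q : ℝ) - (vq α β i x₂ y₂ q : ℝ)) * Real.log q) =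
        ((vq α β i x₂ y₂ q : ℝ) - (vq α β i x₁ y₁ q : ℝ)) * Real.log q := by ring
    rw [e1] at h3
    exact h3

end Pool.Agent.W33.RB
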